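import Pool.Agent.Helper62.BX.Stm
import Pool.Agent.Helper4.BW.Pre

/-!
# `X_W`
-/

set_option autoImplicit false

open Polynomial Matrix Finset NumberField IsDedekindDomain

namespace Pool.Agent.Helper4.BX

open Pool.Agent.Helper62.BM Pool.Agent.Helper62.BW Pool.Agent.Helper62.BX Pool.Agent.Helper90.BM
  Pool.Agent.Helper4.BM Pool.Agent.Helper4.BW

section ring

theorem exists_ring' {R L : Type} [CommRing R] [IsDomain R] [Field L] [Algebra R L] (F : R[X][X])
    (t₀ x₀ : L) (f₁ : L[X]) (hN : Node (F.map (mapRingHom (algebraMap R L))) t₀ x₀ f₁) :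
    ∃ (A : Subalgebra R L), A.FG ∧ ∃ (t x : A) (f : A[X]),
      Node (F.map (mapRingHom (algebraMap R A))) t x f := by
  classical
  set S : Finset L := {t₀, x₀} ∪ f₁.coeffs with hS
  set A : Subalgebra R L := Algebra.adjoin R (S : Set _) with hA
  have hsub : ∀ y ∈ S, y ∈ A := fun y hy => Algebra.subset_adjoin hy
  have ht : t₀ ∈ A := hsub _ (by rw [hS]; simp)
  have hx : x₀ ∈ A := hsub _ (by rw [hS]; simp)
  have hf : ∀ n, f₁.coeff n ∈ A := by
    intro n
    by_cases h : f₁.coeff n = 0
    · rw [h]; exact A.zero_mem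
    · exact hsub _ (by
        rw [hS]
        exact Finset.mem_union_right _ (coeff_mem_coeffs h))
  set ψ : A →+* L := (A.val : A →+* L) with hψ
  have hval : Function.Injective ψ := Subtype.val_injective
  obtain ⟨f, hff⟩ : ∃ f : A[X], f.map ψ = f₁ := by
    have h1 : f₁ ∈ Polynomial.lifts ψ := (Polynomial.lifts_iff_coeff_lifts f₁).2 fun n =>
      ⟨⟨f₁.coeff n, hf n⟩, rfl⟩
    exact (Polynomial.mem_lifts _).1 h1
  have hFF : (F.map (mapRingHom (algebraMap R A))).map (mapRingHom ψ) =
      F.map (mapRingHom (algebraMap R L)) := by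
    rw [Polynomial.map_map, mapRingHom_comp]
    rfl
  refine ⟨A, ⟨S, rfl⟩, ⟨t₀, ht⟩, ⟨x₀, hx⟩, f, ?_, ?_, ?_, ?_⟩
  · apply Polynomial.map_injective ψ hval
    rw [map_evalRingHom, hFF]
    rw [Polynomial.map_mul, Polynomial.map_pow, Polynomial.map_sub, Polynomial.map_X,
      Polynomial.map_C, hff]
    exact hN.1
  · have h1 : f₁.Separable := (separable_map _).1 hN.2.1
    rw [← hff] at h1
    set L' : FractionRing A →+* L := IsFractionRing.lift (K := FractionRing A) hval with hL
    have h3 : L'.comp (algebraMap A (FractionRing A)) = ψ := by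
      ext x
      rw [RingHom.comp_apply, hL, IsFractionRing.lift_algebraMap]
    rw [← separable_map L', Polynomial.map_map, h3]
    exact h1
  · intro h
    apply hN.2.2.1
    have h1 := congrArg ψ h
    rw [map_zero, ← Polynomial.eval_map_apply, hff] at h1
    exact h1
  · intro h
    apply hN.2.2.2
    have h1 := congrArg ψ h
    rw [map_zero, ← Polynomial.eval_map_apply, map_evalRingHom, map_dt, hFF] at h1
    exact h1

theorem countable_mv (R : Type) [CommRing R] [Countable R] (n : ℕ) :
    Countable (MvPolynomial (Fin n) R) := by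
  rw [← Cardinal.mk_le_aleph0_iff]
  refine MvPolynomial.cardinalMk_le_max.trans ?_
  refine max_le (max_le ?_ ?_) le_rfl
  · exact Cardinal.mk_le_aleph0_iff.2 inferInstance
  · exact Cardinal.mk_le_aleph0_iff.2 inferInstance

theorem countable_ft (R A : Type) [CommRing R] [Countable R] [CommRing A] [Algebra R A]
    [h : Algebra.FiniteType R A] : Countable A := by
  obtain ⟨n, f, hf⟩ := Algebra.FiniteType.iff_quotient_mvPolynomial''.1 h
  have := countable_mv R n
  exact hf.countable

theorem countable_Rp (K : Type) [Field K] [NumberField K] (r : ℕ) : Countable (Rp K r) := by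
  have h1 := countable_closure (K := K)
  have h2 : Countable K := (algebraMap K (AlgebraicClosure K)).injective.countable
  have h3 : Countable (𝓞 K) := (IsFractionRing.injective (𝓞 K) K).countable
  exact countable_mv (𝓞 K) r

end ring

/-- `X_W`. -/
theorem x_W (hData : W_Data) (hStrong : W_Strong) (hTr : W_Tr) (hIrr : W_Irr) (hG : W_FewG)
    (hSpread : X_Spread) : X_W := by
  classical
  intro K _ _ rr g hg F φ hGen ⟨t₀, x₀, f₁, hNode⟩ hIrrF hφ G hG0 ε hε
  obtain ⟨A, hFG, tA, xA, fA, hNA⟩ := exists_ring' F t₀ x₀ f₁ hNode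
  have hval : Function.Injective (A.val : A →+* (Cl K rr)) := Subtype.val_injective
  have hRL : Function.Injective (algebraMap (Rp K rr) (Cl K rr)) := by
    rw [IsScalarTower.algebraMap_eq (Rp K rr) (FractionRing (Rp K rr)) (Cl K rr)]
    exact (algebraMap (FractionRing (Rp K rr)) (Cl K rr)).injective.comp (IsFractionRing.injective (Rp K rr) _)
  have h1 : Function.Injective (algebraMap (Rp K rr) A) := by
    intro x y hxy
    exact hRL (congrArg (fun z : A => (z : (Cl K rr))) hxy)
  have h2 : Algebra.FiniteType (Rp K rr) A := (Subalgebra.fg_iff_finiteType A).mp hFG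
  have hCZ : CharZero A := charZero_of_injective_algebraMap h1
  have hCR := countable_Rp K rr
  have hCt : Countable A := countable_ft (Rp K rr) A
  -- the family over `A`
  set FA : A[X][X] := F.map (mapRingHom (algebraMap (Rp K rr) A)) with hFA
  have hGenA : Gen g FA := gen_map (algebraMap (Rp K rr) A) h1 hGen
  obtain ⟨D, P, S, hFam, hOk⟩ := hData A g hg FA hGenA tA xA fA hNA
  have hFb : FA.map (mapRingHom (A.val : A →+* (Cl K rr))) = F.map (mapRingHom (algebraMap (Rp K rr) (Cl K rr))) := by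
    rw [hFA, Polynomial.map_map, mapRingHom_comp]
    rfl
  have hStr : (D.map (algebraMap A (FractionRing A))).Strong := by
    have k1 := fam_map (A.val : A →+* (Cl K rr)) hval hFam
    have k2 := ok_inj D hOk (A.val : A →+* (Cl K rr)) hval
    rw [hFb] at k1
    have k3 := hIrr (Cl K rr) g hg _ _ _ _ k1 k2 hIrrF
    have k4 := hStrong (Cl K rr) g hg _ k2 k3
    exact hTr A g D hOk (Cl K rr) (FractionRing A) _ _ hval
      (IsFractionRing.injective A (FractionRing A)) k4
  have hφ0 : φ ≠ 0 := by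
    intro h
    rw [h, natDegree_zero] at hφ
    omega
  have hl0 : φ.leadingCoeff ≠ 0 := leadingCoeff_ne_zero.2 hφ0
  have hGA0 : MvPolynomial.map (mapRingHom (algebraMap (Rp K rr) A)) G ≠ 0 := by
    intro h
    apply hG0
    apply MvPolynomial.map_injective (mapRingHom (algebraMap (Rp K rr) A)) (map_injective _ h1)
    rw [h, map_zero]
  obtain ⟨H, hH0, hH⟩ := A2 A g _ hGA0
  set d := φ.natDegree with hd
  have hdpos : (0 : ℝ) < d := by exact_mod_cast hφ
  -- the discriminant
  obtain ⟨u, w, dsc, hdsc, huw⟩ := sep_clear F hGen.2.2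
  have hdl : dsc.leadingCoeff ≠ 0 := leadingCoeff_ne_zero.2 hdsc
  obtain ⟨p₀, a₀, ha₀, hfew⟩ := hG g hg A FA D P S hFam hOk hStr H hH0 (ε / (2 * d))
    (by positivity)
  obtain ⟨c₀, hc₀, hsp⟩ := hSpread (Rp K rr) A h1 h2 a₀ ha₀
  refine ⟨c₀ * φ.leadingCoeff * dsc.leadingCoeff, mul_ne_zero (mul_ne_zero hc₀ hl0) hdl, ?_⟩
  obtain ⟨N, hN⟩ := exists_nat_gt (2 * dsc.natDegree * d / ε : ℝ)
  have h20 : (2 : 𝓞 K) ≠ 0 := two_ne_zero
  refine (((finite_mem (K := K) 2 h20).union (finite_le (K := K) p₀)).union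
    (finite_le (K := K) N)).subset ?_
  rintro v ⟨hv, -, s, hsc, hv'⟩
  by_contra hno
  simp only [Set.mem_union, Set.mem_ofPred_eq, not_or, not_le] at hno
  obtain ⟨⟨h2v, hp0⟩, hpN⟩ := hno
  rw [lt_iff_not_ge] at hv'
  apply hv'
  set p := Ideal.absNorm v.asIdeal with hp
  have hFp : Fact p.Prime := ⟨hv⟩
  have hcharκ := charP_res v hv
  rw [← hp] at hcharκ
  set κ := v.asIdeal.ResidueField with hκ
  set ψ : (Rp K rr) →+* κ := (algebraMap (𝓞 K) κ).comp (evs s) with hψ
  have hψs : Function.Surjective ψ := by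
    have hmax : v.asIdeal.IsMaximal := v.isMaximal
    have k1 : Function.Surjective (algebraMap (𝓞 K) κ) :=
      v.asIdeal.algebraMap_residueField_surjective
    refine k1.comp ?_
    intro x
    exact ⟨MvPolynomial.C x, MvPolynomial.eval_C x⟩
  have hψe : ∀ x : (Rp K rr), ψ x = algebraMap (𝓞 K) κ (evs s x) := fun x => rfl
  have hψc : ψ (c₀ * φ.leadingCoeff * dsc.leadingCoeff) ≠ 0 := by
    rw [hψe, Ne, Ideal.algebraMap_residueField_eq_zero]
    exact hsc
  rw [map_mul, map_mul] at hψc
  have hψ1 : ψ c₀ ≠ 0 := left_ne_zero_of_mul (left_ne_zero_of_mul hψc)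
  have hψ2 : ψ φ.leadingCoeff ≠ 0 := right_ne_zero_of_mul (left_ne_zero_of_mul hψc)
  have hψ3 : ψ dsc.leadingCoeff ≠ 0 := right_ne_zero_of_mul hψc
  obtain ⟨k, hk, χ, ι', hcomp, hχ⟩ := hsp κ ψ hψs hψ1
  have hcn := card_res v
  rw [← hp] at hcn
  have hchar : CharP k p := charP_of_injective_ringHom ι'.injective p
  have hfinite : Finite κ := Nat.finite_of_card_ne_zero (by rw [hcn]; exact hv.ne_zero)
  have : Fintype κ := Fintype.ofFinite _
  rw [Nat.card_eq_fintype_card] at hcn
  have hpow : ∀ t : κ, t ^ p = t := fun t => by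
    rw [← hcn]
    exact FiniteField.pow_card t
  set Fκ : κ[X][X] := F.map (mapRingHom ψ) with hFκ
  set Fk : k[X][X] := FA.map (mapRingHom χ) with hFk
  have hFkk : Fκ.map (mapRingHom ι') = Fk := by
    rw [hFκ, hFk, hFA, Polynomial.map_map, Polynomial.map_map, mapRingHom_comp, mapRingHom_comp,
      hcomp]
  set dκ : κ[X] := dsc.map ψ with hdκ
  have hdκ0 : dκ ≠ 0 := map_ne ψ dsc hψ3
  -- the bad members
  set φs : (𝓞 K)[X] := φ.map (evs s) with hφs
  have hφψ : φs.map (algebraMap (𝓞 K) κ) = φ.map ψ := by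
    rw [hφs, Polynomial.map_map]
  set Fs : (𝓞 K)[X][X] := F.map (mapRingHom (evs s)) with hFs
  have hFsκ : Fs.map (mapRingHom (algebraMap (𝓞 K) κ)) = Fκ := by
    rw [hFs, hFκ, Polynomial.map_map, mapRingHom_comp]
  set r : ℕ → κ := fun t => algebraMap (𝓞 K) κ (φs.eval (t : 𝓞 K)) with hr
  obtain ⟨Z1, hZ1⟩ : ∃ Z1 : Finset κ, Z1 = dκ.roots.toFinset := ⟨_, rfl⟩
  obtain ⟨Z2, hZ2⟩ : ∃ Z2 : Finset κ, Z2 =
    univ.filter (fun s => MvPolynomial.eval₂ ((evalRingHom (ι' s)).comp (mapRingHom χ))
      (fun u : Fin g × Fin g => (Yh p g (2 * g) Fk u.1 (lo u.2)).eval (ι' s)) H = 0) :=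
    ⟨_, rfl⟩
  set Z : Finset κ := Z1 ∪ Z2 with hZ
  have hZcard : (Z.card : ℝ) ≤ dsc.natDegree + ε / (2 * d) * p := by
    have e1 : Z1.card ≤ dsc.natDegree := by
      rw [hZ1]
      exact (Multiset.toFinset_card_le _).trans ((card_roots' _).trans natDegree_map_le)
    have e3 := hfew p k χ hp0.le hχ (Z2.image ι') (by
        intro t ht
        obtain ⟨s, hs, rfl⟩ := Finset.mem_image.1 ht
        rw [hZ2, Finset.mem_filter] at hs
        exact ⟨by rw [← map_pow, hpow], hs.2⟩)
    rw [Finset.card_image_of_injective _ ι'.injective] at e3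
    have e4 : (Z.card : ℝ) ≤ (Z1.card : ℝ) + Z2.card := by
      exact_mod_cast Finset.card_union_le _ _
    refine e4.trans (add_le_add ?_ e3)
    exact_mod_cast e1
  have hbad : ∀ t : ℕ, ¬ GoodW g F φ G v s t → r t ∈ Z := by
    intro t ht
    by_contra hcon
    apply ht
    rw [hZ, Finset.mem_union, hZ1, hZ2, Finset.mem_filter, Multiset.mem_toFinset, not_or,
      not_and, mem_roots hdκ0, IsRoot.def] at hcon
    have hc1 : dκ.eval (r t) ≠ 0 := hcon.1
    have hc2 := hcon.2 (Finset.mem_univ _)
    have hrd : rd v (membF Fs φs t) = Fκ.map (evalRingHom (r t)) := by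
      unfold rd membF
      rw [map_evalRingHom, hFsκ]
    have hrk : (rd v (membF Fs φs t)).map ι' = Fk.map (evalRingHom (ι' (r t))) := by
      rw [hrd, map_evalRingHom, hFkk]
    -- the Hasse-Witt matrix
    have hW : ∀ i j : Fin g, ι' (hasseWitt p g (rd v (membF Fs φs t)) i j) =
        (Yh p g (2 * g) Fk i (lo j)).eval (ι' (r t)) := by
      intro i j
      rw [hasseWitt_map, hrk, Yh_eval' p g Fk _ hv.pos]
    have hnot := fun h => hc2 (hH k ((evalRingHom (ι' (r t))).comp (mapRingHom χ))
      (fun u : Fin g × Fin g => (Yh p g (2 * g) Fk u.1 (lo u.2)).eval (ι' (r t))) h)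
    rw [imp_false, not_or, not_or] at hnot
    obtain ⟨hn1, hn2, -⟩ := hnot
    refine ⟨⟨h2v, ?_, ?_, ?_⟩, ?_⟩
    · show (rd v (membF Fs φs t)).natDegree = _
      rw [hrd, hFκ, (hGen.1.map _).natDegree_map, hGen.1.natDegree_map, hGen.2.1]
    · show (rd v (membF Fs φs t)).Separable
      have k1 := sep_map ((evalRingHom (r t)).comp (mapRingHom ψ)) F u w dsc huw
        (by
          rw [RingHom.comp_apply, coe_mapRingHom, coe_evalRingHom]
          exact hc1)
      rwa [hrd, hFκ, Polynomial.map_map]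
    · intro hdet
      apply hn1
      have hdet' : ι' ((hasseWitt p g (rd v (membF Fs φs t))).det) = 0 := by
        rw [show (hasseWitt p g (rd v (membF Fs φs t))).det = 0 from hdet, map_zero]
      rw [RingHom.map_det] at hdet'
      rw [← hdet']
      congr 1
      ext i j
      rw [Matrix.of_apply, RingHom.mapMatrix_apply, Matrix.map_apply, hW]
    · intro hav
      have h5 : ∀ W : Fin g × Fin g → k,
          MvPolynomial.eval₂ ((evalRingHom (ι' (r t))).comp (mapRingHom χ)) W
            (MvPolynomial.map (mapRingHom (algebraMap (Rp K rr) A)) G) =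
          MvPolynomial.eval₂ (ι'.comp ((algebraMap (𝓞 K) κ).comp
            (evalRingHom (φs.eval (t : 𝓞 K))))) W
            (MvPolynomial.map (mapRingHom (evs s)) G) := by
        intro W
        rw [MvPolynomial.eval₂_map, MvPolynomial.eval₂_map]
        congr 1
        refine Polynomial.ringHom_ext (fun x => ?_) ?_
        · simp only [RingHom.comp_apply, coe_mapRingHom, map_C, coe_evalRingHom, eval_C]
          exact (RingHom.congr_fun hcomp x)
        · simp only [RingHom.comp_apply, coe_mapRingHom, map_X, coe_evalRingHom, eval_X]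
          rfl
      have h6 := congrArg ι' hav
      rw [map_zero, MvPolynomial.eval₂_comp_left] at h6
      apply hn2
      rw [h5, ← h6]
      congr 1
      funext u
      exact (hW u.1 u.2).symm
  have hfib : ∀ s' : κ, (((range p).filter fun t : ℕ => ¬ GoodW g F φ G v s t).filter
      (fun t => r t = s')).card ≤ d := by
    intro s'
    have hdegφ : (φ.map ψ).natDegree = d := natDegree_map_of_leadingCoeff_ne_zero _ hψ2
    have hne : φ.map ψ - C s' ≠ 0 := by
      intro h
      rw [sub_eq_zero] at h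
      rw [h, natDegree_C] at hdegφ
      omega
    have hdeg2 : (φ.map ψ - C s').natDegree ≤ d := by
      rw [natDegree_sub_C, hdegφ]
    have hinjOn : Set.InjOn (fun t : ℕ => (t : κ)) (range p : Set ℕ) := by
      intro x hx y hy hxy
      rw [Finset.coe_range, Set.mem_Iio] at hx hy
      have := (CharP.natCast_eq_natCast κ p).1 hxy
      rw [Nat.ModEq, Nat.mod_eq_of_lt hx, Nat.mod_eq_of_lt hy] at this
      exact this
    have hsub : (((range p).filter fun t : ℕ => ¬ GoodW g F φ G v s t).filter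
        (fun t => r t = s')).image (fun t : ℕ => (t : κ)) ⊆ (φ.map ψ - C s').roots.toFinset := by
      intro x hx
      obtain ⟨t, ht, rfl⟩ := Finset.mem_image.1 hx
      have hts := (Finset.mem_filter.1 ht).2
      rw [Multiset.mem_toFinset, mem_roots hne, IsRoot.def, eval_sub, eval_C, sub_eq_zero,
        ← hts, hr]
      simp only
      rw [← Polynomial.eval₂_at_apply, Polynomial.eval₂_eq_eval_map, map_natCast, hφψ]
    calc _ = ((((range p).filter fun t : ℕ => ¬ GoodW g F φ G v s t).filter
        (fun t => r t = s')).image (fun t : ℕ => (t : κ))).card := by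
          rw [Finset.card_image_of_injOn]
          refine hinjOn.mono ?_
          intro t ht
          exact Finset.mem_coe.2 (Finset.mem_filter.1 (Finset.mem_filter.1
            (Finset.mem_coe.1 ht)).1).1
      _ ≤ (φ.map ψ - C s').roots.toFinset.card := Finset.card_le_card hsub
      _ ≤ (φ.map ψ - C s').roots.card := Multiset.toFinset_card_le _
      _ ≤ (φ.map ψ - C s').natDegree := card_roots' _
      _ ≤ d := hdeg2
  have hcount : ((range p).filter fun t : ℕ => ¬ GoodW g F φ G v s t).card ≤ d * Z.card := by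
    refine (Finset.card_le_mul_card_image (f := r) _ d (fun s _ => hfib s)).trans ?_
    refine Nat.mul_le_mul_left _ (Finset.card_le_card ?_)
    intro s hs
    obtain ⟨t, ht, rfl⟩ := Finset.mem_image.1 hs
    exact hbad t (Finset.mem_filter.1 ht).2
  have hcount' : ((((range p).filter fun t : ℕ => ¬ GoodW g F φ G v s t).card : ℕ) : ℝ) ≤
      d * Z.card := by
    exact_mod_cast hcount
  refine hcount'.trans ?_
  have hpN' : (N : ℝ) < p := by exact_mod_cast hpN
  have h6 : 2 * dsc.natDegree * d / ε < p := hN.trans hpN'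
  rw [div_lt_iff₀ hε] at h6
  calc (d : ℝ) * Z.card ≤ d * (dsc.natDegree + ε / (2 * d) * p) :=
        mul_le_mul_of_nonneg_left hZcard hdpos.le
    _ = dsc.natDegree * d + ε * p / 2 := by field_simp
    _ ≤ ε * p := by linarith

end Pool.Agent.Helper4.BX
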