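import Pool.Agent.Helper62.BX.Stm
import Pool.Agent.Helper4.BM.KFewK

/-!
# `X_C` from `K_FewG` and `S_FewG`
-/

set_option autoImplicit false

open Polynomial Matrix Finset NumberField IsDedekindDomain

namespace Pool.Agent.Helper4.BX

open Pool.Agent.Helper62.BM Pool.Agent.Helper62.BX Pool.Agent.Helper90.BM Pool.Agent.Helper4.BM

section roots

variable {R : Type} [CommRing R] [IsDomain R] [CharZero R]

/-- the zeros of `f` and the roots of unity generate a finitely generated ring -/
theorem rootsC (n m : ℕ) (hm : 0 < m) (f : R[X]) (hf : f.natDegree = n)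
    (hsep : (f.map (algebraMap R (FractionRing R))).Separable) :
    ∃ (A : Subalgebra R (AlgebraicClosure (FractionRing R))) (a : Fin n → A) (Zs : Finset A), A.FG ∧
      Function.Injective a ∧ f.map (algebraMap R A) =
        C (algebraMap R A f.leadingCoeff) * ∏ j, (X - C (a j)) ∧
      (∀ z ∈ Zs, IsUnit z) ∧ ∀ (k : Type) [Field k] (χ : A →+* k) (ζ : k), ζ ^ m = 1 →
        ∃ z ∈ Zs, χ z = ζ := by
  classical
  set E' := AlgebraicClosure (FractionRing R) with hE'
  set F : E'[X] := (f.map (algebraMap R (FractionRing R))).map (algebraMap (FractionRing R) E') with hF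
  have hinj : Function.Injective (algebraMap R (FractionRing R)) := IsFractionRing.injective R (FractionRing R)
  have hdeg : F.natDegree = n := by
    rw [hF, natDegree_map, natDegree_map_eq_of_injective hinj, hf]
  have hF0 : F.Separable := hsep.map
  have hsplit : F.Splits := IsAlgClosed.splits F
  have hcard : F.roots.card = n := by
    rw [← hdeg]
    exact (splits_iff_card_roots.1 hsplit)
  have hnd : F.roots.Nodup := nodup_roots hF0
  obtain ⟨S, hS⟩ : ∃ S : Finset E', S.val = F.roots := ⟨⟨F.roots, hnd⟩, rfl⟩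
  have hScard : S.card = n := by
    rw [Finset.card_def, hS, hcard]
  let e : Fin n ≃ S := (S.equivFinOfCardEq hScard).symm
  have hchar : CharZero E' := charZero_of_injective_algebraMap (algebraMap (FractionRing R) E').injective
  have hne : NeZero ((m : ℕ) : E') := ⟨by
    rw [Ne, Nat.cast_eq_zero]
    omega⟩
  have hne' : NeZero m := ⟨by omega⟩
  obtain ⟨ω, hω⟩ := HasEnoughRootsOfUnity.exists_primitiveRoot E' m
  let A := Algebra.adjoin R ((insert ω S : Finset E') : Set E')
  have hmem : ∀ j, ((e j : S) : E') ∈ A := fun j =>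
    Algebra.subset_adjoin (Finset.mem_coe.2 (Finset.mem_insert_of_mem (e j).2))
  have hωA : ω ∈ A := Algebra.subset_adjoin (Finset.mem_coe.2 (Finset.mem_insert_self ω S))
  have hval : Function.Injective (A.val : A →+* E') := Subtype.val_injective
  have hωp : IsPrimitiveRoot (⟨ω, hωA⟩ : A) m :=
    IsPrimitiveRoot.of_map_of_injective (f := (A.val : A →+* E')) (by exact hω) hval
  have hprod : F = C F.leadingCoeff * ∏ j, (X - C ((e j : S) : E')) := by
    have h1 := hsplit.eq_prod_roots
    have h2 : (F.roots.map fun a => X - C a).prod = ∏ j, (X - C ((e j : S) : E')) := by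
      rw [← hS]
      change ∏ a ∈ S, (X - C a) = _
      rw [← Finset.prod_coe_sort S (fun a => X - C a)]
      exact (Equiv.prod_comp e fun x : S => (X - C (x : E'))).symm
    rw [h2] at h1
    exact h1
  refine ⟨A, fun j => ⟨(e j : S), hmem j⟩, nthRootsFinset m (1 : A),
    Subalgebra.fg_adjoin_finset (insert ω S), ?_, ?_, ?_, ?_⟩
  · intro i j hij
    have h1 : ((e i : S) : E') = ((e j : S) : E') := congrArg (fun z : A => (z : E')) hij
    exact e.injective (Subtype.ext h1)
  · apply map_injective _ hval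
    have h1 : (A.val : A →+* E').comp (algebraMap R A) =
        (algebraMap (FractionRing R) E').comp (algebraMap R (FractionRing R)) := by
      rw [← IsScalarTower.algebraMap_eq R (FractionRing R) E']
      rfl
    rw [Polynomial.map_map, h1, ← Polynomial.map_map, ← hF, Polynomial.map_mul,
      Polynomial.map_C, Polynomial.map_prod]
    simp only [Polynomial.map_sub, Polynomial.map_X, Polynomial.map_C]
    have h2 : (A.val : A →+* E') (algebraMap R A f.leadingCoeff) = F.leadingCoeff := by
      have h3 := RingHom.congr_fun h1 f.leadingCoeff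
      rw [RingHom.comp_apply] at h3
      rw [h3, RingHom.comp_apply, hF, leadingCoeff_map, leadingCoeff_map_of_injective hinj]
    rw [h2]
    exact hprod
  · intro z hz
    rw [mem_nthRootsFinset hm] at hz
    exact IsUnit.of_pow_eq_one hz (by omega)
  · intro k _ χ ζ hζ
    have h1 := X_pow_sub_one_eq_prod hm hωp
    have h2 := congrArg (fun q => (q.map χ).eval ζ) h1
    simp only [Polynomial.map_sub, Polynomial.map_pow, Polynomial.map_X, Polynomial.map_one,
      eval_sub, eval_pow, eval_X, eval_one, Polynomial.map_prod, Polynomial.map_C, eval_prod,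
      eval_C] at h2
    rw [hζ, sub_self] at h2
    obtain ⟨z, hz, hz0⟩ := Finset.prod_eq_zero_iff.1 h2.symm
    exact ⟨z, hz, (sub_eq_zero.1 hz0).symm⟩

end roots

/-- `X_C` from `K_FewG`, `S_FewG` and `X_Spread`. -/
theorem x_C (hKG : K_FewG) (hSG : S_FewG) (hSpread : X_Spread) : X_C := by
  classical
  intro K _ _ nr n m hn hm2 hcop f φ hf hsep hφ G hG0 ε hε
  have hm0 : 0 < m := by omega
  obtain ⟨A, a, Zs, hFG, hainj, hfact, hZu, hZs⟩ := rootsC n m hm0 f hf hsep
  have hRL : Function.Injective (algebraMap (Rp K nr) (Cl K nr)) := by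
    rw [IsScalarTower.algebraMap_eq (Rp K nr) (FractionRing (Rp K nr)) (Cl K nr)]
    exact (algebraMap (FractionRing (Rp K nr)) (Cl K nr)).injective.comp
      (IsFractionRing.injective (Rp K nr) _)
  have h1 : Function.Injective (algebraMap (Rp K nr) A) := by
    intro x y hxy
    exact hRL (congrArg (fun z : A => (z : Cl K nr)) hxy)
  have h2 : Algebra.FiniteType (Rp K nr) A := (Subalgebra.fg_iff_finiteType A).mp hFG
  have hCZ : CharZero A := charZero_of_injective_algebraMap h1
  have hf0 : f ≠ 0 := by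
    intro h
    rw [h, natDegree_zero] at hf
    omega
  have hc0 : f.leadingCoeff ≠ 0 := leadingCoeff_ne_zero.2 hf0
  have hφ0 : φ ≠ 0 := by
    intro h
    rw [h, natDegree_zero] at hφ
    omega
  have hl0 : φ.leadingCoeff ≠ 0 := leadingCoeff_ne_zero.2 hφ0
  have hGA0 : ∀ r, MvPolynomial.map (mapRingHom (algebraMap (Rp K nr) A)) (G r) ≠ 0 := by
    intro r h
    apply hG0 r
    apply MvPolynomial.map_injective (mapRingHom (algebraMap (Rp K nr) A)) (map_injective _ h1)
    rw [h, map_zero]
  choose H hH0 hH using fun r => A2k (dK n m r) Zs hZu _ (hGA0 r)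
  set d := φ.natDegree with hd
  have hdpos : (0 : ℝ) < d := by exact_mod_cast hφ
  have hmpos : (0 : ℝ) < m := by exact_mod_cast hm0
  have hex : ∀ r, ∃ (p₀ : ℕ) (a₀ : A), a₀ ≠ 0 ∧ (0 < r → r < m →
      ∀ (p : ℕ) [Fact p.Prime] (k : Type) [Field k] [CharP k p] (φ : A →+* k), p₀ ≤ p →
      m ∣ p - 1 → φ a₀ ≠ 0 → ∀ T : Finset k, (∀ t ∈ T, t ^ p = t ∧
        MvPolynomial.eval₂ ((evalRingHom t).comp (mapRingHom φ))
          (fun u : Fin (dK n m r) × Fin (dK n m r) =>
          (yk p (r * ((p - 1) / m)) (fun j => φ (a j)) u.1 u.2).eval t) (H r) = 0) →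
        (T.card : ℝ) ≤ ε / (2 * d * m) * p) := by
    intro r
    by_cases hr : 0 < r ∧ r < m
    · obtain ⟨p₀, a₀, ha₀, h⟩ := fewGd hKG hSG n m r hn hcop hr.1 hr.2 A a hainj (H r) (hH0 r)
        (ε / (2 * d * m)) (by positivity)
      exact ⟨p₀, a₀, ha₀, fun _ _ => h⟩
    · exact ⟨0, 1, one_ne_zero, fun h4 h5 => absurd ⟨h4, h5⟩ hr⟩
  choose p₀ a₀ ha₀ hfew using hex
  set D : A := ∏ u ∈ (univ : Finset (Fin n × Fin n)).filter (fun u => u.1 ≠ u.2),
    (a u.1 - a u.2) with hD
  have hD0 : D ≠ 0 := by
    rw [hD, Finset.prod_ne_zero_iff]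
    intro u hu
    rw [Finset.mem_filter] at hu
    exact sub_ne_zero.2 fun h => hu.2 (hainj h)
  have hcA : algebraMap (Rp K nr) A f.leadingCoeff ≠ 0 := by
    intro h
    exact hc0 (h1 (by rw [h, map_zero]))
  have hpa : ∏ r ∈ range m, a₀ r ≠ 0 := Finset.prod_ne_zero_iff.2 fun r _ => ha₀ r
  set b : A := (∏ r ∈ range m, a₀ r) * algebraMap (Rp K nr) A f.leadingCoeff * D with hb
  have hb0 : b ≠ 0 := mul_ne_zero (mul_ne_zero hpa hcA) hD0
  obtain ⟨c₀, hc₀, hsp⟩ := hSpread (Rp K nr) A h1 h2 b hb0
  refine ⟨c₀ * φ.leadingCoeff, mul_ne_zero hc₀ hl0, ?_⟩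
  obtain ⟨N, hN⟩ := exists_nat_gt (2 * n * d / ε : ℝ)
  have hmK : (m : 𝓞 K) ≠ 0 := by
    rw [Ne, Nat.cast_eq_zero]
    omega
  refine (((finite_mem (K := K) (m : 𝓞 K) hmK).union
    (finite_le (K := K) (∑ r ∈ range m, p₀ r))).union (finite_le (K := K) N)).subset ?_
  rintro v ⟨hv, hvm, s, hsc, hv'⟩
  by_contra hno
  simp only [Set.mem_union, Set.mem_ofPred_eq, not_or, not_le] at hno
  obtain ⟨⟨hmv, hp0⟩, hpN⟩ := hno
  rw [lt_iff_not_ge] at hv'
  apply hv'
  set p := Ideal.absNorm v.asIdeal with hp
  have hFp : Fact p.Prime := ⟨hv⟩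
  have hcharκ := charP_res v hv
  rw [← hp] at hcharκ
  set κ := v.asIdeal.ResidueField with hκ
  set ψ : Rp K nr →+* κ := (algebraMap (𝓞 K) κ).comp (evs s) with hψ
  have hψs : Function.Surjective ψ := by
    have hmax : v.asIdeal.IsMaximal := v.isMaximal
    have k1 : Function.Surjective (algebraMap (𝓞 K) κ) :=
      v.asIdeal.algebraMap_residueField_surjective
    refine k1.comp ?_
    intro x
    exact ⟨MvPolynomial.C x, MvPolynomial.eval_C x⟩
  have hψe : ∀ x : Rp K nr, ψ x = algebraMap (𝓞 K) κ (evs s x) := fun x => rfl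
  have hψc : ψ (c₀ * φ.leadingCoeff) ≠ 0 := by
    rw [hψe, Ne, Ideal.algebraMap_residueField_eq_zero]
    exact hsc
  rw [map_mul] at hψc
  have hψ1 : ψ c₀ ≠ 0 := left_ne_zero_of_mul hψc
  have hψ2 : ψ φ.leadingCoeff ≠ 0 := right_ne_zero_of_mul hψc
  obtain ⟨k, hk, χ, ι', hcomp', hχ⟩ := hsp κ ψ hψs hψ1
  have hcomp : ι'.comp ψ = χ.comp (algebraMap (Rp K nr) A) := hcomp'.symm
  have hchar : CharP k p := charP_of_injective_ringHom ι'.injective p
  have hcn := card_res v
  rw [← hp] at hcn
  have hfinite : Finite κ := Nat.finite_of_card_ne_zero (by rw [hcn]; exact hv.ne_zero)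
  have : Fintype κ := Fintype.ofFinite _
  rw [Nat.card_eq_fintype_card] at hcn
  have hpow : ∀ t : κ, t ^ p = t := fun t => by
    rw [← hcn]
    exact FiniteField.pow_card t
  -- consequences of `χ b ≠ 0`
  have hχ1 : ∀ r, r < m → χ (a₀ r) ≠ 0 := fun r hr h => hχ (by
    rw [hb, map_mul, map_mul, map_prod, Finset.prod_eq_zero (Finset.mem_range.2 hr) h, zero_mul,
      zero_mul])
  have hχ2 : χ (algebraMap (Rp K nr) A f.leadingCoeff) ≠ 0 := fun h =>
    hχ (by rw [hb, map_mul, map_mul, h, mul_zero, zero_mul])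
  have hχ3 : Function.Injective fun j => χ (a j) := by
    intro i j hij
    by_contra hne
    apply hχ
    have h5 : χ D = 0 := by
      rw [hD, map_prod]
      exact Finset.prod_eq_zero (i := (i, j)) (by simp [hne]) (by
        simp only [map_sub]
        exact sub_eq_zero.2 hij)
    rw [hb, map_mul, h5, mul_zero]
  set c : k := χ (algebraMap (Rp K nr) A f.leadingCoeff) with hc
  have hcι : c = ι' (ψ f.leadingCoeff) := (RingHom.congr_fun hcomp _).symm
  have hcp : c ^ p = c := by rw [hcι, ← map_pow, hpow]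
  set fκ : κ[X] := f.map ψ with hfκ
  have hfk : fκ.map ι' = C c * ∏ j, (X - C (χ (a j))) := by
    rw [hfκ, Polynomial.map_map, hcomp, ← Polynomial.map_map, hfact, Polynomial.map_mul,
      Polynomial.map_C, Polynomial.map_prod]
    simp only [Polynomial.map_sub, Polynomial.map_X, Polynomial.map_C]
    rfl
  have hlc : ψ f.leadingCoeff ≠ 0 := by
    intro h
    apply hχ2
    rw [hcι, h, map_zero]
  have hfdeg : fκ.natDegree = n := by
    rw [hfκ, natDegree_map_of_leadingCoeff_ne_zero _ hlc, hf]
  have hfκ0 : fκ ≠ 0 := by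
    intro h
    rw [h, natDegree_zero] at hfdeg
    omega
  have hfsep : fκ.Separable := by
    rw [← Polynomial.separable_map ι', hfk]
    exact Separable.unit_mul (isUnit_C.2 (isUnit_iff_ne_zero.2 hχ2))
      (separable_prod_X_sub_C_iff.2 hχ3)
  -- the bad members
  set φs : (𝓞 K)[X] := φ.map (evs s) with hφs
  have hφψ : φs.map (algebraMap (𝓞 K) κ) = φ.map ψ := by
    rw [hφs, Polynomial.map_map]
  set fs : (𝓞 K)[X] := f.map (evs s) with hfs
  have hfsκ : rd v fs = fκ := by
    unfold rd
    rw [hfs, hfκ, Polynomial.map_map]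
  set rr : ℕ → κ := fun t => algebraMap (𝓞 K) κ (φs.eval (t : 𝓞 K)) with hrr
  obtain ⟨Z2, hZ2⟩ : ∃ Z2 : ℕ → Finset κ, ∀ r, Z2 r =
    univ.filter (fun s => MvPolynomial.eval₂ ((evalRingHom (ι' s)).comp (mapRingHom χ))
      (fun u : Fin (dK n m r) × Fin (dK n m r) =>
        (yk p (r * ((p - 1) / m)) (fun j => χ (a j)) u.1 u.2).eval (ι' s)) (H r) = 0) :=
    ⟨_, fun r => rfl⟩
  set Z : Finset κ := univ.filter (fun s => fκ.eval s = 0) ∪
    ((range m).filter (fun r => 0 < r)).biUnion Z2 with hZ
  have hZcard : (Z.card : ℝ) ≤ n + ε / (2 * d) * p := by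
    have e1 : (univ.filter (fun s => fκ.eval s = 0)).card ≤ n := by
      have e2 : univ.filter (fun s => fκ.eval s = 0) ⊆ fκ.roots.toFinset := by
        intro s hs
        rw [Finset.mem_filter] at hs
        rw [Multiset.mem_toFinset, mem_roots hfκ0]
        exact hs.2
      refine (Finset.card_le_card e2).trans ?_
      refine (Multiset.toFinset_card_le _).trans ?_
      rw [← hfdeg]
      exact card_roots' fκ
    have e3 : ∀ r ∈ (range m).filter (fun r => 0 < r), ((Z2 r).card : ℝ) ≤
        ε / (2 * d * m) * p := by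
      intro r hr
      rw [Finset.mem_filter, Finset.mem_range] at hr
      have hpr : p₀ r ≤ p := (Finset.single_le_sum (f := p₀) (fun _ _ => Nat.zero_le _)
        (Finset.mem_range.2 hr.1)).trans hp0.le
      have e5 := hfew r hr.2 hr.1 p k χ hpr hvm (hχ1 r hr.1) ((Z2 r).image ι') (by
        intro t ht
        obtain ⟨s, hs, rfl⟩ := Finset.mem_image.1 ht
        rw [hZ2, Finset.mem_filter] at hs
        exact ⟨by rw [← map_pow, hpow], hs.2⟩)
      rw [Finset.card_image_of_injective _ ι'.injective] at e5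
      exact e5
    have e4 : (Z.card : ℝ) ≤ ((univ.filter (fun s => fκ.eval s = 0)).card : ℝ) +
        ∑ r ∈ (range m).filter (fun r => 0 < r), ((Z2 r).card : ℝ) := by
      have e6 := Finset.card_union_le (univ.filter (fun s => fκ.eval s = 0))
        (((range m).filter (fun r => 0 < r)).biUnion Z2)
      have e7 : (((range m).filter (fun r => 0 < r)).biUnion Z2).card ≤
        ∑ r ∈ (range m).filter (fun r => 0 < r), (Z2 r).card := Finset.card_biUnion_le
      exact_mod_cast e6.trans (Nat.add_le_add_left e7 _)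
    have e8 : ∑ r ∈ (range m).filter (fun r => 0 < r), ((Z2 r).card : ℝ) ≤
        ε / (2 * d) * p := by
      refine (Finset.sum_le_card_nsmul _ _ _ e3).trans ?_
      rw [nsmul_eq_mul]
      have e9 : (((range m).filter (fun r => 0 < r)).card : ℝ) ≤ m := by
        have := Finset.card_filter_le (range m) (fun r => 0 < r)
        rw [Finset.card_range] at this
        exact_mod_cast this
      calc (((range m).filter (fun r => 0 < r)).card : ℝ) * (ε / (2 * d * m) * p)
          ≤ m * (ε / (2 * d * m) * p) := mul_le_mul_of_nonneg_right e9 (by positivity)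
        _ = ε / (2 * d) * p := by field_simp
    refine e4.trans (add_le_add ?_ e8)
    exact_mod_cast e1
  have hbad : ∀ t : ℕ, ¬ GoodC n m f φ G v s t → rr t ∈ Z := by
    intro t ht
    by_contra hcon
    apply ht
    rw [hZ, Finset.mem_union, Finset.mem_filter, not_or, not_and] at hcon
    have hc1 : fκ.eval (rr t) ≠ 0 := hcon.1 (Finset.mem_univ _)
    have hc2 : ∀ r, 0 < r → r < m →
        MvPolynomial.eval₂ ((evalRingHom (ι' (rr t))).comp (mapRingHom χ))
      (fun u : Fin (dK n m r) × Fin (dK n m r) =>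
        (yk p (r * ((p - 1) / m)) (fun j => χ (a j)) u.1 u.2).eval (ι' (rr t))) (H r) ≠ 0 := by
      intro r hr hrm h
      apply hcon.2
      rw [Finset.mem_biUnion]
      refine ⟨r, Finset.mem_filter.2 ⟨Finset.mem_range.2 hrm, hr⟩, ?_⟩
      rw [hZ2, Finset.mem_filter]
      exact ⟨Finset.mem_univ _, h⟩
    refine ⟨hmv, (by show (rd v fs).natDegree = n; rw [hfsκ]; exact hfdeg), ?_, ?_⟩
    · have hrd : rd v ((X - C (φs.eval (t : 𝓞 K))) * fs) = (X - C (rr t)) * fκ := by
        rw [← hfsκ]
        unfold rd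
        rw [Polynomial.map_mul, Polynomial.map_sub, Polynomial.map_X, Polynomial.map_C]
      show (rd v ((X - C (φs.eval (t : 𝓞 K))) * fs)).Separable
      rw [hrd]
      refine Polynomial.Separable.mul separable_X_sub_C hfsep ?_
      rw [(irreducible_X_sub_C (rr t)).coprime_iff_not_dvd, dvd_iff_isRoot]
      exact hc1
    · intro r hr hrm
      -- the Hasse-Witt matrix
      obtain ⟨ζ, hζ, hW0⟩ := A1k p n m r (fun j => χ (a j)) c (ι' (rr t)) hcp hχ2 hvm hrm.le
      obtain ⟨z, hz, hzζ⟩ := hZs k χ ζ hζ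
      have hW : ∀ i j : Fin (dK n m r), ι' (hwK p n m r (rd v fs) (rr t) i j) =
          ζ * (yk p (r * ((p - 1) / m)) (fun j => χ (a j)) i j).eval (ι' (rr t)) := by
        intro i j
        rw [hwK_map]
        have : (rd v fs).map ι' = C c * ∏ j, (X - C (χ (a j))) := by rw [hfsκ]; exact hfk
        rw [this, hW0]
      have hnot := fun h => hc2 r hr hrm
        (hH r k ((evalRingHom (ι' (rr t))).comp (mapRingHom χ)) (fun u =>
        (yk p (r * ((p - 1) / m)) (fun j => χ (a j)) u.1 u.2).eval (ι' (rr t))) h)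
      rw [imp_false, not_or] at hnot
      obtain ⟨hn1, hn2⟩ := hnot
      have hζ0 : ζ ≠ 0 := by
        rintro rfl
        rw [zero_pow (by omega)] at hζ
        exact zero_ne_one hζ
      constructor
      · intro hdet
        apply hn1
        have hdet' : ι' ((hwK p n m r (rd v fs) (rr t)).det) = 0 := by
          have : (hwK p n m r (rd v fs) (rr t)).det = 0 := hdet
          rw [this, map_zero]
        rw [RingHom.map_det] at hdet'
        have h5 : ι'.mapMatrix (hwK p n m r (rd v fs) (rr t)) =
            ζ • (Matrix.of fun i j : Fin (dK n m r) =>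
              (yk p (r * ((p - 1) / m)) (fun j => χ (a j)) i j).eval (ι' (rr t))) := by
          ext i j
          rw [Matrix.smul_apply, Matrix.of_apply, RingHom.mapMatrix_apply, Matrix.map_apply, hW,
            smul_eq_mul]
        rw [h5, Matrix.det_smul] at hdet'
        rcases mul_eq_zero.1 hdet' with h6 | h6
        · exact absurd h6 (pow_ne_zero _ hζ0)
        · exact h6
      · intro hav
        apply hn2
        refine ⟨z, hz, ?_⟩
        have h5 : ∀ W : Fin (dK n m r) × Fin (dK n m r) → k,
            MvPolynomial.eval₂ ((evalRingHom (ι' (rr t))).comp (mapRingHom χ)) W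
              (MvPolynomial.map (mapRingHom (algebraMap (Rp K nr) A)) (G r)) =
            MvPolynomial.eval₂ (ι'.comp ((algebraMap (𝓞 K) κ).comp
              (evalRingHom (φs.eval (t : 𝓞 K))))) W
              (MvPolynomial.map (mapRingHom (evs s)) (G r)) := by
          intro W
          rw [MvPolynomial.eval₂_map, MvPolynomial.eval₂_map]
          congr 1
          refine Polynomial.ringHom_ext (fun x => ?_) ?_
          · simp only [RingHom.comp_apply, coe_mapRingHom, map_C, coe_evalRingHom, eval_C]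
            exact (RingHom.congr_fun hcomp x).symm
          · simp only [RingHom.comp_apply, coe_mapRingHom, map_X, coe_evalRingHom, eval_X]
            rfl
        have h6 := congrArg ι' hav
        rw [map_zero, MvPolynomial.eval₂_comp_left] at h6
        rw [h5, ← h6]
        congr 1
        funext u
        have h7 : ((evalRingHom (ι' (rr t))).comp (mapRingHom χ)) (C z) = ζ := by
          simp only [RingHom.comp_apply, coe_mapRingHom, map_C, coe_evalRingHom, eval_C]
          exact hzζ
        rw [h7]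
        exact (hW u.1 u.2).symm
  have hfib : ∀ s' : κ, (((range p).filter fun t : ℕ =>
      ¬ GoodC n m f φ G v s t).filter (fun t => rr t = s')).card ≤ d := by
    intro s'
    have hdegφ : (φ.map ψ).natDegree = d :=
      natDegree_map_of_leadingCoeff_ne_zero _ hψ2
    have hne : φ.map ψ - C s' ≠ 0 := by
      intro h
      rw [sub_eq_zero] at h
      rw [h, natDegree_C] at hdegφ
      omega
    have hdeg2 : (φ.map ψ - C s').natDegree ≤ d := by
      rw [natDegree_sub_C, hdegφ]
    have hinjOn : Set.InjOn (fun t : ℕ => (t : κ)) (range p : Set ℕ) := by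
      intro x hx y hy hxy
      rw [Finset.coe_range, Set.mem_Iio] at hx hy
      have := (CharP.natCast_eq_natCast κ p).1 hxy
      rw [Nat.ModEq, Nat.mod_eq_of_lt hx, Nat.mod_eq_of_lt hy] at this
      exact this
    have hsub : (((range p).filter fun t : ℕ =>
        ¬ GoodC n m f φ G v s t).filter (fun t => rr t = s')).image
        (fun t : ℕ => (t : κ)) ⊆ (φ.map ψ - C s').roots.toFinset := by
      intro x hx
      obtain ⟨t, ht, rfl⟩ := Finset.mem_image.1 hx
      have hts := (Finset.mem_filter.1 ht).2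
      rw [Multiset.mem_toFinset, mem_roots hne, IsRoot.def, eval_sub, eval_C, sub_eq_zero,
        ← hts, hrr]
      simp only
      rw [← Polynomial.eval₂_at_apply, Polynomial.eval₂_eq_eval_map, map_natCast, hφψ]
    calc _ = ((((range p).filter fun t : ℕ =>
        ¬ GoodC n m f φ G v s t).filter (fun t => rr t = s')).image
        (fun t : ℕ => (t : κ))).card := by
          rw [Finset.card_image_of_injOn]
          refine hinjOn.mono ?_
          intro t ht
          exact Finset.mem_coe.2 (Finset.mem_filter.1 (Finset.mem_filter.1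
            (Finset.mem_coe.1 ht)).1).1
      _ ≤ (φ.map ψ - C s').roots.toFinset.card := Finset.card_le_card hsub
      _ ≤ (φ.map ψ - C s').roots.card := Multiset.toFinset_card_le _
      _ ≤ (φ.map ψ - C s').natDegree := card_roots' _
      _ ≤ d := hdeg2
  have hcount : ((range p).filter fun t : ℕ =>
      ¬ GoodC n m f φ G v s t).card ≤ d * Z.card := by
    refine (Finset.card_le_mul_card_image (f := rr) _ d (fun s _ => hfib s)).trans ?_
    refine Nat.mul_le_mul_left _ (Finset.card_le_card ?_)
    intro s hs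
    obtain ⟨t, ht, rfl⟩ := Finset.mem_image.1 hs
    exact hbad t (Finset.mem_filter.1 ht).2
  have hcount' : ((((range p).filter fun t : ℕ =>
      ¬ GoodC n m f φ G v s t).card : ℕ) : ℝ) ≤ d * Z.card := by
    exact_mod_cast hcount
  refine hcount'.trans ?_
  have hpN' : (N : ℝ) < p := by exact_mod_cast hpN
  have h6 : 2 * n * d / ε < p := hN.trans hpN'
  rw [div_lt_iff₀ hε] at h6
  calc (d : ℝ) * Z.card ≤ d * (n + ε / (2 * d) * p) :=
        mul_le_mul_of_nonneg_left hZcard hdpos.le
    _ = n * d + ε * p / 2 := by field_simp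
    _ ≤ ε * p := by linarith

end Pool.Agent.Helper4.BX
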